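import Pool.Agent.Work.MP_91103f_lv.Interface

/-!
# Block NCH: the number of children and the number of parents
-/

namespace Pool.TriLev.helper17

open Pool.Agent.Work.MP_91103f_co

open Classical

theorem stmt_NCH : Stmt_NCH := by
  intro V G F hT r x a b u hxr hab hu hd ha hch hs hpa
  obtain ⟨-, hinj, hsurj⟩ := hT.z_cycle hab
  have hdu : u + 2 < (G.neighborSet x).ncard := by omega
  -- classification of the neighbours
  have hcl : ∀ c, G.Adj x c → (c = a ∧ G.dist r c = G.dist r x) ∨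
      (∃ i, 1 ≤ i ∧ i ≤ u ∧ c = z F x a b i ∧ G.dist r c = G.dist r x + 1) ∨
      (c = z F x a b (u + 1) ∧ G.dist r c = G.dist r x) ∨
      (∃ i, u + 2 ≤ i ∧ i < (G.neighborSet x).ncard ∧ c = z F x a b i ∧
        G.dist r x = G.dist r c + 1) := by
    intro c hc
    obtain ⟨k, hk, rfl⟩ := hsurj c hc
    rcases Nat.eq_zero_or_pos k with rfl | hk0
    · exact Or.inl ⟨rfl, ha⟩
    · rcases Nat.lt_or_ge k (u + 1) with h1 | h1
      · exact Or.inr (Or.inl ⟨k, hk0, by omega, rfl, (hch k hk0 (by omega)).2⟩)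
      · rcases Nat.eq_or_lt_of_le h1 with h2 | h2
        · refine Or.inr (Or.inr (Or.inl ⟨by rw [← h2], by rw [← h2]; exact hs⟩))
        · exact Or.inr (Or.inr (Or.inr ⟨k, by omega, hk, rfl, (hpa k (by omega) hk).2⟩))
  have hchild : ∀ c, Ch G r x c → ∃ i, 1 ≤ i ∧ i ≤ u ∧ c = z F x a b i := by
    intro c hc
    have hlev := hc.2
    rcases hcl c hc.1 with ⟨-, h1⟩ | ⟨i, h1, h2, h3, -⟩ | ⟨-, h1⟩ | ⟨i, -, -, -, h1⟩
    · omega
    · exact ⟨i, h1, h2, h3⟩
    · omega
    · omega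
  have hparent : ∀ c, Ch G r c x → ∃ i, u + 2 ≤ i ∧ i < (G.neighborSet x).ncard ∧
      c = z F x a b i := by
    intro c hc
    have hlev := hc.2
    rcases hcl c hc.1.symm with ⟨-, h1⟩ | ⟨i, -, -, -, h1⟩ | ⟨-, h1⟩ | ⟨i, h1, h2, h3, -⟩
    · omega
    · omega
    · omega
    · exact ⟨i, h1, h2, h3⟩
  refine ⟨?_, hchild, hparent, ?_, ?_⟩
  · have hset : {c | Ch G r x c} = (fun i => z F x a b i) '' (↑(Finset.Icc 1 u) : Set ℕ) := by
      ext c
      simp only [Set.mem_setOf_eq, Set.mem_image, Finset.coe_Icc, Set.mem_Icc]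
      constructor
      · intro hc
        obtain ⟨i, h1, h2, h3⟩ := hchild c hc
        exact ⟨i, ⟨h1, h2⟩, h3.symm⟩
      · rintro ⟨i, ⟨h1, h2⟩, rfl⟩
        exact hch i h1 h2
    change ({c | Ch G r x c} : Set V).ncard = u
    rw [hset, Set.InjOn.ncard_image, Set.ncard_coe_finset, Nat.card_Icc]
    · omega
    · intro i hi j hj he
      rw [Finset.coe_Icc, Set.mem_Icc] at hi hj
      exact hinj i j (by omega) (by omega) he
  · intro c hc hlev
    rcases hcl c hc with ⟨h1, -⟩ | ⟨i, -, -, -, h1⟩ | ⟨h1, -⟩ | ⟨i, -, -, -, h1⟩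
    · exact Or.inl h1
    · omega
    · exact Or.inr h1
    · omega
  · constructor
    · rintro ⟨p, hp⟩
      rcases hd with hd | hd
      · exact hd
      · exfalso
        have e1 := hp _ (hpa (u + 2) (by omega) (by omega))
        have e2 := hp _ (hpa (u + 3) (by omega) (by omega))
        have := hinj (u + 2) (u + 3) (by omega) (by omega) (e1.trans e2.symm)
        omega
    · intro hd'
      refine ⟨z F x a b (u + 2), fun q hq => ?_⟩
      obtain ⟨i, h1, h2, h3⟩ := hparent q hq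
      rw [h3, show i = u + 2 by omega]

end Pool.TriLev.helper17
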