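import Pool.Agent.Work.MP_91103f_lv.Interface

/-!
# Block UPW: an up-path is a walk
-/

namespace Pool.TriLev.helper17

open Pool.Agent.Work.MP_91103f_co

open Classical

theorem upw_aux {V : Type} {G : SimpleGraph V} {r : V} (y : V) (H : ℕ) : ∀ x : V,
    Up G r H x y → (∃ L, L ∈ BRS G r x y H) ∧ G.dist r y = G.dist r x + H := by
  induction H with
  | zero =>
    intro x hx
    have hxy : x = y := hx
    subst hxy
    refine ⟨⟨[], ⟨⟨List.isChain_singleton _, List.nodup_singleton _, rfl⟩, rfl, ?_⟩⟩, rfl⟩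
    intro p hp
    simp at hp
  | succ H ih =>
    rintro x ⟨c, hc, hup⟩
    obtain ⟨⟨L, ⟨h1, h2, h3⟩, h4, h5⟩, hlev⟩ := ih c hup
    have hlev' : G.dist r y = G.dist r x + (H + 1) := by
      rw [hlev, hc.2]
      ring
    refine ⟨⟨c :: L, ⟨⟨?_, ?_, ?_⟩, ?_, ?_⟩⟩, hlev'⟩
    · rw [List.isChain_cons_cons]
      exact ⟨hc.1, h1⟩
    · rw [List.nodup_cons]
      refine ⟨?_, h2⟩
      intro hx
      have hc2 := hc.2
      rw [List.mem_cons] at hx
      rcases hx with rfl | hx
      · omega
      · have := (h5 x hx).1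
        omega
    · rw [List.length_cons, h3]
    · rw [List.getLastD_cons]
      exact h4
    · intro p hp
      have hc2 := hc.2
      rw [List.mem_cons] at hp
      rcases hp with rfl | hp
      · omega
      · have := h5 p hp
        omega

theorem stmt_UPW : Stmt_UPW := by
  intro V G r hfin x y H hup
  obtain ⟨⟨L, hL⟩, hlev⟩ := upw_aux y H x hup
  refine ⟨?_, hlev⟩
  have hf : (BRS G r x y H).Finite := (finite_PL hfin H x).subset fun _ h => h.1
  have : (BRS G r x y H).ncard ≠ 0 := by
    rw [Ne, Set.ncard_eq_zero hf]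
    exact Set.Nonempty.ne_empty ⟨L, hL⟩
  omega

end Pool.TriLev.helper17
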