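import Pool.Agent.Work.MP_91103f_lv.Interface

/-!
# Block VM: many walks through a flat triangle
-/

namespace Pool.TriLev.helper17

open Pool.Agent.Work.MP_91103f_co

open Classical

section

variable {V : Type} {G : SimpleGraph V} {r x : V} {H : ℕ} {ps : ℕ → ℕ → V}

theorem phi_iter (hF : FlatTri G r H x ps) : ∀ k, 2 * k ≤ H →
    (Phi G r)^[k] x = ps (2 * k) k := by
  intro k
  induction k with
  | zero => intro _; simpa using hF.apex.symm
  | succ k ih =>
    intro hk
    rw [Function.iterate_succ_apply', ih (by omega), hF.phi (2 * k) k (by omega) (by omega)]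
    rfl

/-- the zigzag path -/
theorem zig_adj (hF : FlatTri G r H x ps) (t : ℕ) (ht : t + 1 ≤ H) :
    G.Adj (ps t ((t + 1) / 2)) (ps (t + 1) ((t + 2) / 2)) := by
  rcases Nat.even_or_odd' t with ⟨s, rfl | rfl⟩
  · have h1 : (2 * s + 1) / 2 = s := by omega
    have h2 : (2 * s + 2) / 2 = s + 1 := by omega
    rw [h1, h2]
    exact (hF.chr (2 * s) s (by omega) (by omega)).1
  · have h1 : (2 * s + 1 + 1) / 2 = s + 1 := by omega
    have h2 : (2 * s + 1 + 2) / 2 = s + 1 := by omega
    rw [h1, h2]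
    exact (hF.chl (2 * s + 1) (s + 1) (by omega) (by omega)).1

theorem isChain_map_range (f : ℕ → V) (n : ℕ) (h : ∀ t, t < n → G.Adj (f t) (f (t + 1))) :
    List.IsChain G.Adj (f 0 :: (List.range n).map (fun j => f (j + 1))) := by
  have h1 : f 0 :: (List.range n).map (fun j => f (j + 1)) = (List.range (n + 1)).map f := by
    rw [List.range_succ_eq_map, List.map_cons, List.map_map]
    rfl
  rw [h1, List.isChain_map, List.isChain_iff_getElem]
  intro i hi
  rw [List.length_range] at hi
  simp only [List.getElem_range]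
  exact h i (by omega)

theorem getLastD_map_range (f : ℕ → V) (n : ℕ) :
    ((List.range n).map (fun j => f (j + 1))).getLastD (f 0) = f n := by
  cases n with
  | zero => rfl
  | succ n =>
    rw [List.range_succ, List.map_append]
    simp

theorem zig_mem (hF : FlatTri G r H x ps) (N : ℕ) (hN : 2 * N ≤ H) :
    (List.range (2 * N)).map (fun j => ps (j + 1) ((j + 2) / 2)) ∈
      BRS G r x ((Phi G r)^[N] x) (2 * N) := by
  set f : ℕ → V := fun t => ps t ((t + 1) / 2) with hf
  have h0 : f 0 = x := hF.apex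
  have hfN : f (2 * N) = (Phi G r)^[N] x := by
    rw [phi_iter hF N hN]
    change ps (2 * N) ((2 * N + 1) / 2) = _
    rw [show (2 * N + 1) / 2 = N by omega]
  have hl : (List.range (2 * N)).map (fun j => ps (j + 1) ((j + 2) / 2)) =
      (List.range (2 * N)).map (fun j => f (j + 1)) := rfl
  have hlev : ∀ t, t ≤ H → G.dist r (f t) = G.dist r x + t := fun t ht =>
    hF.lev t ((t + 1) / 2) (by omega) ht
  rw [hl]
  refine ⟨⟨?_, ?_, ?_⟩, ?_, ?_⟩
  · rw [← h0]
    exact isChain_map_range f (2 * N) fun t ht => zig_adj hF t (by omega)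
  · have h1 : x :: (List.range (2 * N)).map (fun j => f (j + 1)) =
        (List.range (2 * N + 1)).map f := by
      rw [List.range_succ_eq_map, List.map_cons, List.map_map, h0]
      rfl
    rw [h1]
    apply List.Nodup.map_on _ List.nodup_range
    intro a ha b hb hab
    rw [List.mem_range] at ha hb
    have := congrArg (G.dist r) hab
    rw [hlev a (by omega), hlev b (by omega)] at this
    omega
  · rw [List.length_map, List.length_range]
  · rw [← h0, getLastD_map_range f, hfN, h0]
  · intro p hp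
    rw [List.mem_map] at hp
    obtain ⟨j, hj, rfl⟩ := hp
    rw [List.mem_range] at hj
    rw [hlev (j + 1) (by omega), ← hfN, hlev (2 * N) hN]
    omega

/-- the region -/
def Reg (N h : ℕ) (p : ℤ × ℤ) : Prop :=
  0 ≤ p.2 ∧ p.2 ≤ 2 * (h : ℤ) ∧ -(N : ℤ) ≤ p.1 ∧ p.1 ≤ N ∧ -(N : ℤ) ≤ p.1 + p.2 ∧ p.1 + p.2 ≤ N

/-- the embedding of the region -/
def em (ps : ℕ → ℕ → V) (J I : ℕ) (p : ℤ × ℤ) : V :=
  ps ((J : ℤ) + p.2).toNat ((I : ℤ) + p.1 + p.2).toNat

theorem em_lev (hF : FlatTri G r H x ps) {N h q : ℕ} (hH : 2 * N + 2 * h * (q + 1) ≤ H)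
    {p : ℤ × ℤ} (hp : Reg N h p) :
    (G.dist r (em ps (2 * N + 2 * h * q) (N + h * q) p) : ℤ) =
      G.dist r x + (2 * N + 2 * h * q : ℕ) + p.2 := by
  obtain ⟨h1, h2, h3, h4, h5, h6⟩ := hp
  have hm : (0 : ℤ) ≤ (h * q : ℕ) := by positivity
  have e1 : 2 * h * q = 2 * (h * q) := by ring
  have e2 : 2 * h * (q + 1) = 2 * (h * q) + 2 * h := by ring
  rw [e1]
  rw [e2] at hH
  generalize hw : h * q = w at *
  unfold em
  rw [hF.lev _ _ (by omega) (by omega)]
  push_cast
  omega

theorem em_adj (hF : FlatTri G r H x ps) {N h q : ℕ} (hH : 2 * N + 2 * h * (q + 1) ≤ H)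
    {p p' : ℤ × ℤ} (hp : Reg N h p) (hp' : Reg N h p') (hadj : T6.Adj p p') :
    G.Adj (em ps (2 * N + 2 * h * q) (N + h * q) p)
      (em ps (2 * N + 2 * h * q) (N + h * q) p') := by
  have key : ∀ {p p' : ℤ × ℤ}, Reg N h p → Reg N h p' →
      (p'.1 - p.1, p'.2 - p.2) ∈ ({(1, 0), (0, 1), (-1, 1)} : Set (ℤ × ℤ)) →
      G.Adj (em ps (2 * N + 2 * h * q) (N + h * q) p)
        (em ps (2 * N + 2 * h * q) (N + h * q) p') := by
    rintro ⟨a, b⟩ ⟨a', b'⟩ ⟨h1, h2, h3, h4, h5, h6⟩ ⟨k1, k2, k3, k4, k5, k6⟩ hd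
    have e1 : 2 * h * q = 2 * (h * q) := by ring
    have e2 : 2 * h * (q + 1) = 2 * (h * q) + 2 * h := by ring
    rw [e1]
    rw [e2] at hH
    generalize hw : h * q = w at *
    simp only [Set.mem_insert_iff, Set.mem_singleton_iff, Prod.mk.injEq] at hd
    simp only at h1 h2 h3 h4 h5 h6 k1 k2 k3 k4 k5 k6
    unfold em
    simp only
    rcases hd with ⟨d1, d2⟩ | ⟨d1, d2⟩ | ⟨d1, d2⟩
    · obtain rfl : a' = a + 1 := by omega
      obtain rfl : b' = b := by omega
      rw [show (((N + w : ℕ) : ℤ) + (a + 1) + b').toNat =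
        (((N + w : ℕ) : ℤ) + a + b').toNat + 1 by omega]
      exact hF.row _ _ (by omega) (by omega)
    · obtain rfl : a' = a := by omega
      obtain rfl : b' = b + 1 := by omega
      rw [show (((N + w : ℕ) : ℤ) + a' + (b + 1)).toNat =
        (((N + w : ℕ) : ℤ) + a' + b).toNat + 1 by omega,
        show (((2 * N + 2 * w : ℕ) : ℤ) + (b + 1)).toNat =
        (((2 * N + 2 * w : ℕ) : ℤ) + b).toNat + 1 by omega]
      exact (hF.chr _ _ (by omega) (by omega)).1
    · obtain rfl : a' = a - 1 := by omega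
      obtain rfl : b' = b + 1 := by omega
      rw [show (((N + w : ℕ) : ℤ) + (a - 1) + (b + 1)).toNat =
        (((N + w : ℕ) : ℤ) + a + b).toNat by omega,
        show (((2 * N + 2 * w : ℕ) : ℤ) + (b + 1)).toNat =
        (((2 * N + 2 * w : ℕ) : ℤ) + b).toNat + 1 by omega]
      exact (hF.chl _ _ (by omega) (by omega)).1
  rw [SimpleGraph.fromRel_adj] at hadj
  rcases hadj.2 with h1 | h1
  · exact key hp hp' h1
  · exact (key hp' hp h1).symm

theorem em_inj (hF : FlatTri G r H x ps) {N h q : ℕ} (hH : 2 * N + 2 * h * (q + 1) ≤ H)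
    {p p' : ℤ × ℤ} (hp : Reg N h p) (hp' : Reg N h p')
    (he : em ps (2 * N + 2 * h * q) (N + h * q) p = em ps (2 * N + 2 * h * q) (N + h * q) p') :
    p = p' := by
  have hl := em_lev hF hH hp
  rw [he, em_lev hF hH hp'] at hl
  have hb : p.2 = p'.2 := by omega
  obtain ⟨a, b⟩ := p
  obtain ⟨a', b'⟩ := p'
  simp only at hb
  subst hb
  obtain ⟨h1, h2, h3, h4, h5, h6⟩ := hp
  obtain ⟨k1, k2, k3, k4, k5, k6⟩ := hp'
  simp only at h1 h2 h3 h4 h5 h6 k1 k2 k3 k4 k5 k6
  have e1 : 2 * h * q = 2 * (h * q) := by ring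
  have e2 : 2 * h * (q + 1) = 2 * (h * q) + 2 * h := by ring
  rw [e1] at he
  rw [e2] at hH
  generalize hw : h * q = w at *
  unfold em at he
  simp only at he
  have := hF.inj _ _ _ (by omega) (by omega) (by omega) he
  have : a = a' := by omega
  rw [this]

/-- a walk in `T6` stays in the region -/
theorem walk_bound (L : List (ℤ × ℤ)) : ∀ (p0 : ℤ × ℤ), List.IsChain T6.Adj (p0 :: L) →
    ∀ p ∈ L, |p.1 - p0.1| ≤ (L.length : ℤ) ∧ |p.1 + p.2 - (p0.1 + p0.2)| ≤ (L.length : ℤ) := by
  induction L with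
  | nil => intro p0 _ p hp; simp at hp
  | cons y L ih =>
    intro p0 hc p hp
    rw [List.isChain_cons_cons] at hc
    obtain ⟨hadj, hc⟩ := hc
    have hstep : |y.1 - p0.1| ≤ 1 ∧ |y.1 + y.2 - (p0.1 + p0.2)| ≤ 1 := by
      rw [SimpleGraph.fromRel_adj] at hadj
      rcases hadj.2 with h1 | h1 <;>
      · simp only [Set.mem_insert_iff, Set.mem_singleton_iff, Prod.mk.injEq] at h1
        rw [abs_le, abs_le]
        omega
    rw [List.length_cons]
    push_cast
    rw [List.mem_cons] at hp
    rcases hp with rfl | hp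
    · have : (0 : ℤ) ≤ L.length := by positivity
      constructor
      · linarith [hstep.1]
      · linarith [hstep.2]
    · have h2 := ih y hc p hp
      obtain ⟨a1, a2⟩ := h2
      obtain ⟨b1, b2⟩ := hstep
      rw [abs_le] at a1 a2 b1 b2
      rw [abs_le, abs_le]
      constructor <;> constructor <;> omega

theorem getLastD_map {α β : Type} (f : α → β) (L : List α) (a : α) :
    (L.map f).getLastD (f a) = f (L.getLastD a) := by
  cases L with
  | nil => rfl
  | cons y L =>
    rw [List.getLastD_eq_getLast?, List.getLastD_eq_getLast?, List.getLast?_map]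
    cases h : (y :: L).getLast? with
    | none => simp at h
    | some z => rfl

theorem reg_of_mem {N h : ℕ} {L : List (ℤ × ℤ)} (hL : L ∈ VB N h) : ∀ p ∈ ((0, 0) : ℤ × ℤ) :: L,
    Reg N h p := by
  obtain ⟨⟨h1, h2, h3⟩, h4, h5⟩ := hL
  intro p hp
  rw [List.mem_cons] at hp
  rcases hp with rfl | hp
  · refine ⟨le_refl _, by positivity, ?_, ?_, ?_, ?_⟩ <;> simp
  · have := walk_bound L (0, 0) h1 p hp
    rw [h3, abs_le, abs_le] at this
    simp only at this
    have h6 := h5 p hp
    refine ⟨by omega, h6.2, by omega, by omega, by omega, by omega⟩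

theorem map_mem (hF : FlatTri G r H x ps) {N h q : ℕ} (hH : 2 * N + 2 * h * (q + 1) ≤ H)
    {L : List (ℤ × ℤ)} (hL : L ∈ VB N h) :
    L.map (em ps (2 * N + 2 * h * q) (N + h * q)) ∈
      BRS G r (ps (2 * N + 2 * h * q) (N + h * q))
        (ps (2 * N + 2 * h * (q + 1)) (N + h * (q + 1))) N := by
  have hR := reg_of_mem hL
  obtain ⟨⟨h1, h2, h3⟩, h4, h5⟩ := hL
  have he0 : em ps (2 * N + 2 * h * q) (N + h * q) (0, 0) =
      ps (2 * N + 2 * h * q) (N + h * q) := by
    unfold em
    simp only [add_zero]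
    rw [Int.toNat_natCast, Int.toNat_natCast]
  have he1 : em ps (2 * N + 2 * h * q) (N + h * q) (-(h : ℤ), 2 * (h : ℤ)) =
      ps (2 * N + 2 * h * (q + 1)) (N + h * (q + 1)) := by
    have e1 : 2 * h * q = 2 * (h * q) := by ring
    have e2 : 2 * h * (q + 1) = 2 * (h * q) + 2 * h := by ring
    have e3 : h * (q + 1) = h * q + h := by ring
    rw [e1, e2, e3]
    generalize h * q = w
    unfold em
    simp only
    congr 1 <;> omega
  have hlev0 : (G.dist r (ps (2 * N + 2 * h * q) (N + h * q)) : ℤ) =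
      G.dist r x + (2 * N + 2 * h * q : ℕ) := by
    rw [← he0, em_lev hF hH (hR _ (List.mem_cons_self ..))]
    simp
  have hlev1 : (G.dist r (ps (2 * N + 2 * h * (q + 1)) (N + h * (q + 1))) : ℤ) =
      G.dist r x + (2 * N + 2 * h * q : ℕ) + 2 * h := by
    have e2 : 2 * h * (q + 1) = 2 * (h * q) + 2 * h := by ring
    have e3 : h * (q + 1) = h * q + h := by ring
    have e1 : 2 * h * q = 2 * (h * q) := by ring
    rw [e2] at hH
    rw [e1, e2, e3]
    generalize h * q = w at *
    rw [hF.lev _ _ (by omega) (by omega)]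
    push_cast
    ring
  have hmap : ∀ L' : List (ℤ × ℤ), ∀ p0, List.IsChain T6.Adj (p0 :: L') →
      (∀ p ∈ p0 :: L', Reg N h p) → List.IsChain G.Adj
        (em ps (2 * N + 2 * h * q) (N + h * q) p0 ::
          L'.map (em ps (2 * N + 2 * h * q) (N + h * q))) := by
    intro L'
    induction L' with
    | nil => intro p0 _ _; exact List.isChain_singleton _
    | cons y L' ih =>
      intro p0 hc hr
      rw [List.isChain_cons_cons] at hc
      rw [List.map_cons, List.isChain_cons_cons]
      exact ⟨em_adj hF hH (hr _ (List.mem_cons_self ..))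
        (hr _ (List.mem_cons_of_mem _ (List.mem_cons_self ..))) hc.1,
        ih y hc.2 fun p hp => hr p (List.mem_cons_of_mem _ hp)⟩
  refine ⟨⟨?_, ?_, ?_⟩, ?_, ?_⟩
  · have := hmap L (0, 0) h1 hR
    rwa [he0] at this
  · have h6 : (ps (2 * N + 2 * h * q) (N + h * q)) ::
        L.map (em ps (2 * N + 2 * h * q) (N + h * q)) =
        (((0, 0) : ℤ × ℤ) :: L).map (em ps (2 * N + 2 * h * q) (N + h * q)) := by
      rw [List.map_cons, he0]
    rw [h6]
    apply List.Nodup.map_on _ h2
    intro a ha b hb hab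
    exact em_inj hF hH (hR a ha) (hR b hb) hab
  · rw [List.length_map, h3]
  · have := getLastD_map (em ps (2 * N + 2 * h * q) (N + h * q)) L (0, 0)
    rw [he0, h4, he1] at this
    exact this
  · intro p hp
    rw [List.mem_map] at hp
    obtain ⟨z, hz, rfl⟩ := hp
    have h7 := em_lev hF hH (hR z (List.mem_cons_of_mem _ hz))
    have h8 := h5 z hz
    constructor
    · have : (G.dist r (ps (2 * N + 2 * h * q) (N + h * q)) : ℤ) <
          (G.dist r (em ps (2 * N + 2 * h * q) (N + h * q) z) : ℤ) := by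
        rw [h7, hlev0]
        omega
      exact_mod_cast this
    · have : (G.dist r (em ps (2 * N + 2 * h * q) (N + h * q) z) : ℤ) ≤
          (G.dist r (ps (2 * N + 2 * h * (q + 1)) (N + h * (q + 1))) : ℤ) := by
        rw [h7, hlev1]
        omega
      exact_mod_cast this

theorem map_injOn (hF : FlatTri G r H x ps) {N h q : ℕ} (hH : 2 * N + 2 * h * (q + 1) ≤ H) :
    ∀ (L L' : List (ℤ × ℤ)), (∀ p ∈ L, Reg N h p) → (∀ p ∈ L', Reg N h p) →
      L.map (em ps (2 * N + 2 * h * q) (N + h * q)) =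
        L'.map (em ps (2 * N + 2 * h * q) (N + h * q)) → L = L' := by
  intro L
  induction L with
  | nil =>
    intro L' _ _ he
    cases L' with
    | nil => rfl
    | cons y L' => simp at he
  | cons y L ih =>
    intro L' hL hL' he
    cases L' with
    | nil => simp at he
    | cons y' L' =>
      rw [List.map_cons, List.map_cons, List.cons.injEq] at he
      rw [em_inj hF hH (hL y (List.mem_cons_self ..)) (hL' y' (List.mem_cons_self ..)) he.1,
        ih L' (fun p hp => hL p (List.mem_cons_of_mem _ hp))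
          (fun p hp => hL' p (List.mem_cons_of_mem _ hp)) he.2]

theorem finite_BRS (hfin : ∀ x, (G.neighborSet x).Finite) (x y : V) (n : ℕ) :
    (BRS G r x y n).Finite :=
  (finite_PL hfin n x).subset fun _ h => h.1

theorem step (hfin : ∀ x, (G.neighborSet x).Finite) (hF : FlatTri G r H x ps) {N h q : ℕ}
    (hH : 2 * N + 2 * h * (q + 1) ≤ H) :
    (VB N h).ncard ≤ (BRS G r ((Phi G r)^[N + h * q] x) ((Phi G r)^[N + h * (q + 1)] x) N).ncard := by
  have e1 : 2 * h * q = 2 * (h * q) := by ring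
  have e2 : 2 * h * (q + 1) = 2 * (h * q) + 2 * h := by ring
  have e3 : h * (q + 1) = h * q + h := by ring
  have i1 : (Phi G r)^[N + h * q] x = ps (2 * N + 2 * h * q) (N + h * q) := by
    rw [phi_iter hF _ (by omega)]
    congr 1
    ring
  have i2 : (Phi G r)^[N + h * (q + 1)] x =
      ps (2 * N + 2 * h * (q + 1)) (N + h * (q + 1)) := by
    rw [phi_iter hF _ (by omega)]
    congr 1
    ring
  rw [i1, i2]
  apply Set.ncard_le_ncard_of_injOn (fun L => L.map (em ps (2 * N + 2 * h * q) (N + h * q)))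
    _ _ (finite_BRS hfin _ _ _)
  · intro L hL
    exact map_mem hF hH hL
  · intro L hL L' hL' he
    exact map_injOn hF hH L L' (fun p hp => reg_of_mem hL p (List.mem_cons_of_mem _ hp))
      (fun p hp => reg_of_mem hL' p (List.mem_cons_of_mem _ hp)) he

end

theorem stmt_VM (hC : Stmt_CONC) : Stmt_VM := by
  intro V G r hfin N h m x ps hN hh hF
  have main : ∀ k, k ≤ m → (VB N h).ncard ^ k ≤
      (BRS G r x ((Phi G r)^[N + h * k] x) (2 * N + k * N)).ncard := by
    intro k
    induction k with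
    | zero =>
      intro _
      rw [pow_zero]
      have h1 := zig_mem hF N (by omega)
      have h2 : ((BRS G r x ((Phi G r)^[N] x) (2 * N))).ncard ≠ 0 := by
        rw [Ne, Set.ncard_eq_zero (finite_BRS hfin _ _ _)]
        exact Set.Nonempty.ne_empty ⟨_, h1⟩
      simp only [mul_zero, add_zero, zero_mul]
      omega
    | succ k ih =>
      intro hk
      have hH : 2 * N + 2 * h * (k + 1) ≤ 2 * N + 2 * h * m := by
        have := Nat.mul_le_mul_left (2 * h) hk
        omega
      have hH2 : 2 * (N + h * k) ≤ 2 * N + 2 * h * m := by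
        have := Nat.mul_le_mul_left (2 * h) (show k ≤ m by omega)
        have e1 : 2 * h * k = 2 * (h * k) := by ring
        omega
      have hH3 : 2 * (N + h * (k + 1)) ≤ 2 * N + 2 * h * m := by
        have e1 : 2 * h * (k + 1) = 2 * (h * (k + 1)) := by ring
        omega
      have h1 := ih (by omega)
      have h2 := step hfin hF hH
      have e1 : 2 * h * k = 2 * (h * k) := by ring
      have e2 : 2 * h * (k + 1) = 2 * (h * k) + 2 * h := by ring
      have e3 : h * (k + 1) = h * k + h := by ring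
      have l1 : G.dist r ((Phi G r)^[N + h * k] x) = G.dist r x + 2 * (N + h * k) := by
        rw [phi_iter hF _ hH2, hF.lev _ _ (by omega) hH2]
      have l2 : G.dist r ((Phi G r)^[N + h * (k + 1)] x) =
          G.dist r x + 2 * (N + h * (k + 1)) := by
        rw [phi_iter hF _ hH3, hF.lev _ _ (by omega) hH3]
      have h3 := @hC V G r hfin x ((Phi G r)^[N + h * k] x) ((Phi G r)^[N + h * (k + 1)] x)
        (2 * N + k * N) N (by omega) (by omega)
      have e4 : 2 * N + k * N + N = 2 * N + (k + 1) * N := by ring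
      rw [e4] at h3
      calc (VB N h).ncard ^ (k + 1) = (VB N h).ncard ^ k * (VB N h).ncard := pow_succ _ _
        _ ≤ _ := Nat.mul_le_mul h1 h2
        _ ≤ _ := h3
  exact main m le_rfl

end Pool.TriLev.helper17
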